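import Mathlib
import Pool.Agent.Helper63.AZ.FMain

/-!
# The abc triples of bounded radical: crisp form of the asymptotic formula (MP_4ab349_nt)
-/

set_option autoImplicit false

open Finset

namespace Pool.Agent.Helper39.RAC

/-- radical of `a b (a + b)` -/
abbrev rd (t : ℕ × ℕ) : ℕ := ∏ p ∈ (t.1 * t.2 * (t.1 + t.2)).primeFactors, p

/-- the exponent count: for `0 < e ≤ 1`, `1 / 3 + e / 27 ≤ (1 - e / 12) / (3 - e)` -/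
theorem expo {e : ℝ} (h0 : 0 < e) (h1 : e ≤ 1) : 1 / 3 + e / 27 ≤ (1 - e / 12) / (3 - e) := by
  rw [le_div_iff₀ (by linarith)]
  nlinarith

theorem crisp : ∃ P : ℝ, 0 < P ∧
    HasProd (fun p : Nat.Primes => (1 - 1 / ((p : ℕ) : ℝ)) * (1 - 2 / ((p : ℕ) : ℝ)) +
      3 * (1 - 1 / ((p : ℕ) : ℝ)) ^ 2 /
        (((p : ℕ) : ℝ) - ((p : ℕ) : ℝ) ^ (2 / 3 : ℝ))) P ∧
    ∀ ε : ℝ, 0 < ε → ∃ δ : ℝ, 0 < δ ∧ ∃ C : ℝ, ∀ Z : ℕ, 1 ≤ Z →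
      {t : ℕ × ℕ | 0 < t.1 ∧ 0 < t.2 ∧ t.1.Coprime t.2 ∧
        (∏ p ∈ (t.1 * t.2 * (t.1 + t.2)).primeFactors, p) ≤ Z}.Finite ∧
      |(({t : ℕ × ℕ | 0 < t.1 ∧ 0 < t.2 ∧ t.1.Coprime t.2 ∧
          (∏ p ∈ (t.1 * t.2 * (t.1 + t.2)).primeFactors, p) ≤ Z}.ncard : ℕ) : ℝ) -
        Real.Gamma (1 / 3) ^ 2 / (2 * Real.Gamma (2 / 3)) * P * (Z : ℝ) ^ (2 / 3 : ℝ)| ≤
          C * (Z : ℝ) ^ (2 / 3 - δ) ∧
      (({t : ℕ × ℕ | 0 < t.1 ∧ 0 < t.2 ∧ t.1.Coprime t.2 ∧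
          (∏ p ∈ (t.1 * t.2 * (t.1 + t.2)).primeFactors, p) ≤ Z ∧
          ((∏ p ∈ (t.1 * t.2 * (t.1 + t.2)).primeFactors, p : ℕ) : ℝ) ≤
            ((t.1 + t.2 : ℕ) : ℝ) ^ (3 - ε)}.ncard : ℕ) : ℝ) ≤ C * (Z : ℝ) ^ (2 / 3 - δ) := by
  obtain ⟨P, hP, hprod, hmain⟩ := Pool.Agent.Helper63.AZ.final
  refine ⟨P, hP, hprod, fun ε hε => ?_⟩
  set e : ℝ := min ε 1 with he
  have he0 : 0 < e := lt_min hε one_pos
  have he1 : e ≤ 1 := min_le_right _ _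
  have heε : e ≤ ε := min_le_left _ _
  set K : ℝ := Real.Gamma (1 / 3) ^ 2 / (2 * Real.Gamma (2 / 3)) * P with hK
  obtain ⟨δ, hδ, C, hC⟩ := hmain (e / 27) (by positivity)
  set δ1 : ℝ := min δ (e / 18) with hδ1
  have hδ10 : 0 < δ1 := lt_min hδ (by positivity)
  refine ⟨δ1, hδ10, 3 * |C| + |K|, fun Z hZ => ?_⟩
  have hZ1 : (1 : ℝ) ≤ (Z : ℝ) := by exact_mod_cast hZ
  have hZ0 : (0 : ℝ) < (Z : ℝ) := by linarith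
  obtain ⟨hfin, has, hx⟩ := hC Z hZ
  have hmono : (Z : ℝ) ^ (2 / 3 - δ) ≤ (Z : ℝ) ^ (2 / 3 - δ1) :=
    Real.rpow_le_rpow_of_exponent_le hZ1 (by linarith [min_le_left δ (e / 18)])
  have hpow0 : 0 ≤ (Z : ℝ) ^ (2 / 3 - δ) := by positivity
  have hpow1 : 0 ≤ (Z : ℝ) ^ (2 / 3 - δ1) := by positivity
  have hC1 : C * (Z : ℝ) ^ (2 / 3 - δ) ≤ |C| * (Z : ℝ) ^ (2 / 3 - δ1) :=
    (mul_le_mul_of_nonneg_right (le_abs_self C) hpow0).trans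
      (mul_le_mul_of_nonneg_left hmono (abs_nonneg C))
  refine ⟨hfin, has.trans (hC1.trans ?_), ?_⟩
  · refine mul_le_mul_of_nonneg_right ?_ hpow1
    linarith [abs_nonneg C, abs_nonneg K]
  -- the two parts
  set W : ℕ := ⌊(Z : ℝ) ^ (1 - e / 12)⌋₊ with hW
  have hWr1 : (1 : ℝ) ≤ (Z : ℝ) ^ (1 - e / 12) := Real.one_le_rpow hZ1 (by linarith)
  have hW1 : 1 ≤ W := Nat.le_floor (by simpa using hWr1)
  have hWle : (W : ℝ) ≤ (Z : ℝ) ^ (1 - e / 12) := Nat.floor_le (by linarith)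
  have hWp : (0 : ℝ) ≤ (W : ℝ) := Nat.cast_nonneg _
  have hW1' : (1 : ℝ) ≤ (W : ℝ) := by exact_mod_cast hW1
  obtain ⟨hfinW, hasW, -⟩ := hC W hW1
  have hcountW : (((Helper39.RAll.TT W).ncard : ℕ) : ℝ) ≤ (|K| + |C|) * (Z : ℝ) ^ (2 / 3 - δ1) := by
    have h1 : (((Helper39.RAll.TT W).ncard : ℕ) : ℝ) ≤
        K * (W : ℝ) ^ (2 / 3 : ℝ) + C * (W : ℝ) ^ (2 / 3 - δ) := by
      have := (abs_le.1 hasW).2
      linarith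
    have h2 : (W : ℝ) ^ (2 / 3 - δ) ≤ (W : ℝ) ^ (2 / 3 : ℝ) :=
      Real.rpow_le_rpow_of_exponent_le hW1' (by linarith)
    have h3 : (W : ℝ) ^ (2 / 3 : ℝ) ≤ (Z : ℝ) ^ (2 / 3 - δ1) := by
      calc (W : ℝ) ^ (2 / 3 : ℝ) ≤ ((Z : ℝ) ^ (1 - e / 12)) ^ (2 / 3 : ℝ) :=
            Real.rpow_le_rpow hWp hWle (by norm_num)
        _ = (Z : ℝ) ^ ((1 - e / 12) * (2 / 3)) := by rw [← Real.rpow_mul hZ0.le]
        _ ≤ (Z : ℝ) ^ (2 / 3 - δ1) :=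
          Real.rpow_le_rpow_of_exponent_le hZ1 (by linarith [min_le_right δ (e / 18)])
    have h4 : 0 ≤ (W : ℝ) ^ (2 / 3 - δ) := by positivity
    have h5 : 0 ≤ (W : ℝ) ^ (2 / 3 : ℝ) := by positivity
    calc _ ≤ K * (W : ℝ) ^ (2 / 3 : ℝ) + C * (W : ℝ) ^ (2 / 3 - δ) := h1
      _ ≤ |K| * (W : ℝ) ^ (2 / 3 : ℝ) + |C| * (W : ℝ) ^ (2 / 3 : ℝ) :=
        add_le_add (mul_le_mul_of_nonneg_right (le_abs_self K) h5)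
          ((mul_le_mul_of_nonneg_right (le_abs_self C) h4).trans
            (mul_le_mul_of_nonneg_left h2 (abs_nonneg C)))
      _ = (|K| + |C|) * (W : ℝ) ^ (2 / 3 : ℝ) := by ring
      _ ≤ (|K| + |C|) * (Z : ℝ) ^ (2 / 3 - δ1) :=
        mul_le_mul_of_nonneg_left h3 (by positivity)
  set x : ℝ := (Z : ℝ) ^ (1 / 3 + e / 27) with hxdef
  set N : Set (ℕ × ℕ) := {t : ℕ × ℕ | 0 < t.1 ∧ 0 < t.2 ∧ t.1.Coprime t.2 ∧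
            (∏ p ∈ (t.1 * t.2 * (t.1 + t.2)).primeFactors, p) ≤ Z ∧
            ((t.1 + t.2 : ℕ) : ℝ) ≤ x} with hN
  have hNsub : N ⊆ Helper39.RAll.TT Z := fun t ht => ⟨ht.1, ht.2.1, ht.2.2.1, ht.2.2.2.1⟩
  have hNx := hx x le_rfl
  have hdiff : (((Helper39.RAll.TT Z \ N).ncard : ℕ) : ℝ) ≤ 2 * |C| * (Z : ℝ) ^ (2 / 3 - δ1) := by
    have h1 : (Helper39.RAll.TT Z \ N).ncard + N.ncard = (Helper39.RAll.TT Z).ncard :=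
      Set.ncard_sdiff_add_ncard_of_subset hNsub hfin
    have h2 : (((Helper39.RAll.TT Z \ N).ncard : ℕ) : ℝ) + ((N.ncard : ℕ) : ℝ) =
        (((Helper39.RAll.TT Z).ncard : ℕ) : ℝ) := by exact_mod_cast h1
    have h3 := (abs_le.1 has).2
    have h4 := (abs_le.1 hNx).1
    linarith
  -- the covering
  have hcov : {t : ℕ × ℕ | 0 < t.1 ∧ 0 < t.2 ∧ t.1.Coprime t.2 ∧
          (∏ p ∈ (t.1 * t.2 * (t.1 + t.2)).primeFactors, p) ≤ Z ∧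
          ((∏ p ∈ (t.1 * t.2 * (t.1 + t.2)).primeFactors, p : ℕ) : ℝ) ≤
            ((t.1 + t.2 : ℕ) : ℝ) ^ (3 - ε)} ⊆
      Helper39.RAll.TT W ∪ (Helper39.RAll.TT Z \ N) := by
    rintro t ⟨ha, hb, hab, hr, hrc⟩
    by_cases hlt : (∏ p ∈ (t.1 * t.2 * (t.1 + t.2)).primeFactors, p) ≤ W
    · exact Or.inl ⟨ha, hb, hab, hlt⟩
    · refine Or.inr ⟨⟨ha, hb, hab, hr⟩, fun hn => ?_⟩
      have hcx : ((t.1 + t.2 : ℕ) : ℝ) ≤ x := hn.2.2.2.2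
      have hc1 : (1 : ℝ) ≤ ((t.1 + t.2 : ℕ) : ℝ) := by
        have : 1 ≤ t.1 + t.2 := by omega
        exact_mod_cast this
      have h1 : (Z : ℝ) ^ (1 - e / 12) <
          ((∏ p ∈ (t.1 * t.2 * (t.1 + t.2)).primeFactors, p : ℕ) : ℝ) :=
        Nat.lt_of_floor_lt (not_le.1 hlt)
      have h2 : ((t.1 + t.2 : ℕ) : ℝ) ^ (3 - ε) ≤ ((t.1 + t.2 : ℕ) : ℝ) ^ (3 - e) :=
        Real.rpow_le_rpow_of_exponent_le hc1 (by linarith)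
      have h3 : ((t.1 + t.2 : ℕ) : ℝ) ^ (3 - e) ≤ x ^ (3 - e) :=
        Real.rpow_le_rpow (by linarith) hcx (by linarith)
      have h4 : x ^ (3 - e) ≤ (Z : ℝ) ^ (1 - e / 12) := by
        rw [hxdef, ← Real.rpow_mul hZ0.le]
        refine Real.rpow_le_rpow_of_exponent_le hZ1 ?_
        have := expo he0 he1
        rwa [le_div_iff₀ (by linarith)] at this
      exact absurd (h1.trans_le (hrc.trans (h2.trans (h3.trans h4)))) (lt_irrefl _)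
  have hfinU : (Helper39.RAll.TT W ∪ (Helper39.RAll.TT Z \ N)).Finite :=
    hfinW.union (hfin.subset Set.sdiff_subset)
  have hle := (Set.ncard_le_ncard hcov hfinU).trans (Set.ncard_union_le _ _)
  have hle' : (({t : ℕ × ℕ | 0 < t.1 ∧ 0 < t.2 ∧ t.1.Coprime t.2 ∧
          (∏ p ∈ (t.1 * t.2 * (t.1 + t.2)).primeFactors, p) ≤ Z ∧
          ((∏ p ∈ (t.1 * t.2 * (t.1 + t.2)).primeFactors, p : ℕ) : ℝ) ≤
            ((t.1 + t.2 : ℕ) : ℝ) ^ (3 - ε)}.ncard : ℕ) : ℝ) ≤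
      (((Helper39.RAll.TT W).ncard : ℕ) : ℝ) + (((Helper39.RAll.TT Z \ N).ncard : ℕ) : ℝ) := by
    exact_mod_cast hle
  refine hle'.trans ?_
  calc _ ≤ (|K| + |C|) * (Z : ℝ) ^ (2 / 3 - δ1) + 2 * |C| * (Z : ℝ) ^ (2 / 3 - δ1) :=
        add_le_add hcountW hdiff
    _ = (3 * |C| + |K|) * (Z : ℝ) ^ (2 / 3 - δ1) := by ring

end Pool.Agent.Helper39.RAC
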